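import Mathlib

namespace Pool.Agent.Results.MP_2eb2b4_co.Gap

def A : Set ℕ := {x | ∃ i j : ℕ, x = 2 ^ i * 3 ^ j}

def An (n : ℕ) : Set ℕ := {x ∈ A | {y ∈ A | y < x}.ncard < n}

noncomputable def f (n : ℕ) : ℕ :=
  sInf {k | ∃ H ⊆ An n, H.ncard = k ∧
    ∀ x, x ∈ An n → 2 * x ∈ An n → 3 * x ∈ An n → x ∈ H ∨ 2 * x ∈ H ∨ 3 * x ∈ H}

def B (n k : ℕ) : Set ℕ := {x ∈ An n | ∃ i j : ℕ, x = 2 ^ i * 3 ^ j ∧ (i - j : ℤ) ≡ k [ZMOD 3]}

def Bt (n k : ℕ) : Set ℕ :=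
  {x ∈ An n | ∃ i ≥ 1, x = 2 ^ i ∧ i ≡ k [MOD 3] ∧ 2 ^ (i - 1) * 3 ∉ An n}

noncomputable def h (n : ℕ) : ℤ :=
  min ((B n 0).ncard - (Bt n 0).ncard)
    (min ((B n 1).ncard - (Bt n 1).ncard) ((B n 2).ncard - (Bt n 2).ncard))

def L : Finset ℕ := {1, 2, 3, 4, 6, 8, 9, 12, 16, 18, 24, 27, 32, 36, 48, 54, 64, 72, 81, 96, 108,
  128, 144, 162, 192, 216, 243, 256, 288, 324, 384, 432, 486, 512, 576, 648, 729, 768, 864, 972,
  1024, 1152, 1296, 1458, 1536}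

theorem a1 {x : ℕ} : x ∈ L ↔ x ∈ A ∧ x ≤ 1536 := by
  constructor
  · have : ∀ x ∈ L, (∃ i < 11, ∃ j < 7, x = 2 ^ i * 3 ^ j) ∧ x ≤ 1536 := by decide +kernel
    intro h
    obtain ⟨⟨i, -, j, -, e⟩, l⟩ := this x h
    exact ⟨⟨i, j, e⟩, l⟩
  rintro ⟨⟨i, j, rfl⟩, l⟩
  have h1 : i < 11 := (Nat.pow_lt_pow_iff_right one_lt_two).1
    (((Nat.le_mul_of_pos_right _ (by positivity)).trans l).trans_lt (by norm_num))
  have h2 : j < 7 := (Nat.pow_lt_pow_iff_right (by norm_num : 1 < 3)).1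
    (((Nat.le_mul_of_pos_left _ (by positivity)).trans l).trans_lt (by norm_num))
  revert i j
  suffices ∀ i < 11, ∀ j < 7, 2 ^ i * 3 ^ j ≤ 1536 → 2 ^ i * 3 ^ j ∈ L from
    fun i j l p q => this i p j q l
  decide +kernel

theorem a2 : An 45 = L := by
  ext x
  rw [Finset.mem_coe, a1]
  refine and_congr_right fun _ => ⟨fun q => not_lt.1 fun l => q.not_ge ?_, fun l => ?_⟩
  · refine le_trans (b := (L : Set ℕ).ncard) (by rw [Set.ncard_coe_finset]; decide +kernel)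
      (Set.ncard_le_ncard (fun y hy => (a1.1 hy).imp_right (·.trans_lt l))
        ((Set.finite_lt_nat x).subset fun _ h => h.2))
  · refine (Set.ncard_le_ncard (t := L.erase 1536) (fun y hy => ?_) (Finset.finite_toSet _)).trans_lt
      (by rw [Set.ncard_coe_finset]; decide +kernel)
    have := hy.2.trans_le l
    exact Finset.mem_erase.2 ⟨this.ne, a1.2 ⟨hy.1, this.le⟩⟩

theorem b (k : ℕ) (S : Finset (ℕ × ℕ)) (h1 : (S.image fun p => 2 ^ p.1 * 3 ^ p.2).card = 15)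
    (h2 : ∀ p ∈ S, 2 ^ p.1 * 3 ^ p.2 ∈ L ∧ (p.1 - p.2 : ℤ) ≡ k [ZMOD 3]) :
    (15 : ℤ) ≤ (B 45 k).ncard - (Bt 45 k).ncard := by
  have e : Bt 45 k = ∅ := by
    refine Set.eq_empty_of_forall_notMem ?_
    rintro _ ⟨p, i, hi, rfl, -, q⟩
    rw [a2, Finset.mem_coe, a1] at p q
    have : i < 11 := (Nat.pow_lt_pow_iff_right one_lt_two).1 (p.2.trans_lt (by norm_num))
    refine q ⟨⟨i - 1, 1, rfl⟩, ?_⟩
    interval_cases i <;> norm_num
  have := Set.ncard_le_ncard (s := (S.image fun p => 2 ^ p.1 * 3 ^ p.2 : Finset ℕ)) (t := B 45 k)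
    (fun x hx => by
      obtain ⟨p, hp, rfl⟩ := Finset.mem_image.1 hx
      exact ⟨a2 ▸ (h2 p hp).1, _, _, rfl, (h2 p hp).2⟩)
    ((a2 ▸ L.finite_toSet : (An 45).Finite).subset fun _ h => h.1)
  rw [Set.ncard_coe_finset, h1] at this
  rw [e, Set.ncard_empty]
  omega

theorem result : (f 45 : ℤ) < h 45 := by
  have h1 : f 45 ≤ 14 := by
    refine Nat.sInf_le ⟨({3, 4, 18, 24, 32, 81, 108, 144, 192, 384, 486, 512, 648, 864} : Finset ℕ),
      ?_, by rw [Set.ncard_coe_finset]; rfl, ?_⟩ <;> rw [a2]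
    · exact Finset.coe_subset.2 (by decide +kernel)
    · simp only [Finset.mem_coe]
      decide +kernel
  have k (k : ℕ) := b k (((Finset.range 11) ×ˢ (Finset.range 7)).filter fun p =>
    2 ^ p.1 * 3 ^ p.2 ≤ 1536 ∧ (p.1 + 2 * p.2) % 3 = k)
  have := k 0 (by decide +kernel) (by decide +kernel)
  have := k 1 (by decide +kernel) (by decide +kernel)
  have := k 2 (by decide +kernel) (by decide +kernel)
  unfold h
  omega

end Pool.Agent.Results.MP_2eb2b4_co.Gap
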